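import Pool.Agent.K3h54.VS.Dens

/-!
# Newton and Hodge polygons of direct summands without an orbit condition: all but few are ordinary

`K₀` is a number field, `K` a finite extension, and `A i` finitely many pure motives over `K` with
multiplication by totally real or CM fields (over `K` the `ℓ`-adic monodromy groups are connected, for
one prime `ℓ`). There are *no* conditions on the weights and the Hodge numbers, and there is *no* orbit
condition; the field of multiplications may be `ℚ`.

Let `M` be a motive over `K₀`, with strictly compatible realisations `M ℓ'`, for all primes `ℓ'`, and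
with the Hodge slopes `H`, which over `K` can be built from the pieces of the `A i` by direct sums,
tensor products, Tate twists, duals, exterior powers, direct summands and tensor factors, with the
coefficients `c` (`Gen A T U c`, see the landed file `MP_17d720_ag.VarianceDefect`: the function `c` on
the pieces is additive for direct sums, `c (U ⊗ V) = rank V * c U + rank U * c V`, unchanged for twists,
duals and direct summands, multiplied by `(rank U - 2).choose (k - 1)` for the `k`-th exterior power, and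
divided by the rank of the complementary factor for tensor factors). In the problem `M ℓ'` is the
intersection cohomology `H_ℓ'`.

For a direct summand `R` of `M ℓ'` with the Hodge slopes `h 0 ≤ h 1 ≤ ...` and the slopes
`ν 0 ≤ ν 1 ≤ ...` of the Newton polygon let `D (R) = Σ (h i) ^ 2 - Σ (ν i) ^ 2`. Then
`D (R) ≥ Σ (h i - ν i) ^ 2`, and `D (R) = 0` if and only if the polygons are equal.

Theorem.
1. There is *one* set `G` of places of `K` of density one such that for every `M` in the class, for all
   but finitely many `v ∈ G`, at the place `v₀` of `K₀` below `v`, for all `ℓ'` and all embeddings `τ`, and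
   for **every decomposition of `M ℓ'` into direct summands `R j` with coefficients in `ℚ̄_ℓ'`** (with
   arbitrary characteristic polynomials; Mazur's inequality is assumed for the `R j`) the sum of the
   `D (R j)` is at most `bnd c (defect (A i) γ) = Σ i, (max σ, c (i, σ)) * defect (A i) γ`, `γ` a Frobenius
   element at `v` (`AllSummandsWithin`).
2. For every `t` there is *one* set `P` of places of `K₀`, of lower density at least the proportion of the
   `γ` with `defect (A i) γ ≤ t i` for all `i`, divided by `[K : K₀]`, with the same property for the bound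
   `bnd c t`, and such that
3. for every motive `M` in the class which is the direct sum of motives `R j` over `K₀` with integral
   Frobenius polynomials (for instance `R j = e j M` with idempotent algebraic cycles `e j`):
   (a) at all but finitely many places in `P` **all but at most `2 * bnd c t` of the `R j` are ordinary**;
   (b) there is a set `B` of at most `2 * bnd c t` indices such that **the `R j`, `j ∉ B`, are
   simultaneously ordinary at a set of places in `P` of positive upper density** (if some `γ` satisfies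
   `defect (A i) γ ≤ t i` for all `i`). So Q1 holds for all but at most `2 * bnd c t` of the summands.

The *defect number* `defect (A i) γ` depends only on the Hodge polygons of `A i` and on the action of `γ`
on the embeddings of the field of multiplications; explicit bounds for it are in `VarianceDefect`. It is
zero if `γ` satisfies the orbit condition.

The proof. The second moments are additive, and by Mazur's inequality the differences are nonnegative for
all the summands; so the bound for `M` at the good places (`VarianceDefect`) is a bound for the sum. If the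
Frobenius polynomial of `R j` is integral the vertices of its Newton polygon are integral, and then
`D (R j) ≥ 1 / 2` unless the polygons are equal. (b) follows from (a) by the pigeonhole principle for
densities.
-/

set_option autoImplicit false

namespace Pool.Agent.Results.MP_0dad22_ag.AllButFewSummands

open NumberField IsDedekindDomain Polynomial Filter Topology
open Pool.Agent.W401.Cheb Pool.Agent.W528.Ord Pool.Agent.K3h30.NH Pool.Agent.K3h30.OC
open Pool.Agent.K3h30.VD Pool.Agent.W850.Ord Pool.Agent.K3h54.VS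
open Pool.Agent.R915.Ord (Piece)

/-- The place `v₀` has degree one, and for every prime `ℓ'` different from the residue characteristic
`p = N v₀`, every Frobenius element `γ` at `v₀`, every embedding `τ` of the field of algebraic numbers and
every decomposition (up to semisimplification) of `M ℓ'` into representations `R j` with coefficients in
`ℚ̄_ℓ'` whose Newton polygons lie on or above the polygons with the slopes `H' j` (Mazur's inequality),
where the sum of the `H' j` is `H`: the differences `d j` of the second moments of the Hodge slopes `H' j`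
and of the slopes of `R j` are nonnegative, their sum is at most `t`, and the sum of the squares of the
differences of the slopes is at most `d j` (`HasDist`). -/
def AllSummandsWithin {K₀ : Type} [Field K₀] [NumberField K₀] {r : ℕ}
    (M : ∀ (ℓ' : ℕ) [Fact ℓ'.Prime], GK K₀ →* Matrix.GeneralLinearGroup (Fin r) ℚ_[ℓ'])
    (H : Multiset ℕ) (t : ℝ) (v₀ : HeightOneSpectrum (𝓞 K₀)) : Prop :=
  ∃ (p : ℕ) (_ : Fact p.Prime), Ideal.absNorm v₀.asIdeal = p ∧
    ∀ (ℓ' : ℕ) [Fact ℓ'.Prime], p ≠ ℓ' → ∀ γ : GK K₀, IsFrob v₀ γ →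
      ∀ (τ : algebraicClosure ℚ (PadicAlgCl ℓ') →+* PadicAlgCl p) (m : ℕ) (r' : Fin m → ℕ)
        (R : ∀ j : Fin m, GK K₀ →* Matrix.GeneralLinearGroup (Fin (r' j)) (PadicAlgCl ℓ'))
        (H' : Fin m → Multiset ℕ), (∀ g : GK K₀, cpQ (M ℓ' g) = ∏ j, cp (R j g)) → ∑ j, H' j = H →
          (∀ j, LiesAboveTau (cp (R j γ⁻¹)) τ (H' j)) →
            ∃ d : Fin m → ℝ, (∀ j, 0 ≤ d j) ∧ ∑ j, d j ≤ t ∧
              ∀ j, HasDist (cp (R j γ⁻¹)) τ (H' j) (d j)

/-- `v₀` has degree one, and for every prime `ℓ'` different from the residue characteristic `p = N v₀`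
and every embedding `τ` of the field of algebraic numbers the Newton polygon of `V ℓ'` at `v₀` has the
slopes `H`: Newton polygon = Hodge polygon. -/
def Ordinary {K₀ : Type} [Field K₀] [NumberField K₀] {r : ℕ}
    (V : ∀ (ℓ' : ℕ) [Fact ℓ'.Prime], GK K₀ →* Matrix.GeneralLinearGroup (Fin r) ℚ_[ℓ'])
    (H : Multiset ℕ) (v₀ : HeightOneSpectrum (𝓞 K₀)) : Prop :=
  ∃ (p : ℕ) (_ : Fact p.Prime), Ideal.absNorm v₀.asIdeal = p ∧
    ∀ (ℓ' : ℕ) [Fact ℓ'.Prime], p ≠ ℓ' → ∀ γ : GK K₀, IsFrob v₀ γ →
      ∀ τ : algebraicClosure ℚ (PadicAlgCl ℓ') →+* PadicAlgCl p,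
        NewtonTau (V ℓ' γ⁻¹ : Matrix (Fin r) (Fin r) ℚ_[ℓ']) τ H

/-- `M` is a strictly compatible system over `K₀` with the Hodge slopes `H`, which becomes over `K` a
member of the class generated by the `A i`, with the coefficients `c`. -/
def InClass {K₀ K : Type} [Field K₀] [NumberField K₀] [Field K] [NumberField K] [Algebra K₀ K]
    {ℓ : ℕ} [Fact ℓ.Prime] {ι : Type} (A : ι → MotSystem K ℓ) {r : ℕ}
    (M : ∀ (ℓ' : ℕ) [Fact ℓ'.Prime], GK K₀ →* Matrix.GeneralLinearGroup (Fin r) ℚ_[ℓ'])
    (H : Multiset ℕ) (c : Piece A → ℝ) : Prop :=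
  ∃ (T : Finset ℕ) (F : HeightOneSpectrum (𝓞 K₀) → ℤ[X]), StrictlyCompatible T M F ∧ IsGen A T F H c

/-- The `R j` are strictly compatible systems over `K₀` with (monic, integral) Frobenius polynomials
`F j`, for which Mazur's inequality for the Hodge slopes `H' j` holds, and their direct sum, the system
with the Frobenius polynomials `∏ F j` and the Hodge slopes `∑ H' j`, becomes over `K` a member of the
class generated by the `A i`, with the coefficients `c`. -/
def SumInClass {K₀ K : Type} [Field K₀] [NumberField K₀] [Field K] [NumberField K] [Algebra K₀ K]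
    {ℓ : ℕ} [Fact ℓ.Prime] {ι : Type} (A : ι → MotSystem K ℓ) {m : ℕ} {r : Fin m → ℕ}
    (R : ∀ (j : Fin m) (ℓ' : ℕ) [Fact ℓ'.Prime], GK K₀ →* Matrix.GeneralLinearGroup (Fin (r j)) ℚ_[ℓ'])
    (H' : Fin m → Multiset ℕ) (c : Piece A → ℝ) : Prop :=
  ∃ (T : Finset ℕ) (F : Fin m → HeightOneSpectrum (𝓞 K₀) → ℤ[X]),
    (∀ j, StrictlyCompatible T (R j) (F j)) ∧
    (∀ j v₀, MultSystem.IsDeg1 T v₀ →
      (F j v₀).Monic ∧ MazurSlopes (Ideal.absNorm v₀.asIdeal) (F j v₀) (H' j)) ∧
    IsGen A T (fun v₀ => ∏ j, F j v₀) (∑ j, H' j) c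

/-- upper density of a set of finite places of a number field -/
noncomputable def upperDensity {K₀ : Type} [Field K₀] [NumberField K₀]
    (P : HeightOneSpectrum (𝓞 K₀) → Prop) : ℝ := limsup (ratio P) atTop

theorem result (K₀ K : Type) [Field K₀] [NumberField K₀] [Field K] [NumberField K] [Algebra K₀ K]
    (ℓ : ℕ) [Fact ℓ.Prime] {ι : Type} [Fintype ι] (A : ι → MotSystem K ℓ)
    (χ : GK K →* (PadicAlgCl ℓ)ˣ) (S : Finset ℕ) (hA : ∀ i, (A i).IsMotive χ S) :
    -- 1. a set of places of `K` of density one, for all `M` in the class and all their summands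
    (∃ G : Set (HeightOneSpectrum (𝓞 K)), Tendsto (ratio fun v => v ∈ G) atTop (𝓝 1) ∧
      ∀ (r : ℕ) (M : ∀ (ℓ' : ℕ) [Fact ℓ'.Prime], GK K₀ →* Matrix.GeneralLinearGroup (Fin r) ℚ_[ℓ'])
        (H : Multiset ℕ) (c : Piece A → ℝ), InClass A M H c →
        {v ∈ G | ¬ ∀ v₀ : HeightOneSpectrum (𝓞 K₀),
          v.asIdeal.comap (algebraMap (𝓞 K₀) (𝓞 K)) = v₀.asIdeal → ∀ γ : GK K, IsFrob v γ →
            AllSummandsWithin M H (bnd c fun i => defect (A i) γ) v₀}.Finite) ∧
    ∀ t : ι → ℝ, ∃ P : Set (HeightOneSpectrum (𝓞 K₀)),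
      share A t / (Module.finrank K₀ K : ℝ) ≤ lowerDensity (fun v₀ => v₀ ∈ P) ∧
      ((∃ γ : GK K, ∀ i, defect (A i) γ ≤ t i) → 0 < share A t) ∧
      -- 2. places of `K₀`, for all `M` in the class and all their summands
      (∀ (r : ℕ) (M : ∀ (ℓ' : ℕ) [Fact ℓ'.Prime], GK K₀ →* Matrix.GeneralLinearGroup (Fin r) ℚ_[ℓ'])
        (H : Multiset ℕ) (c : Piece A → ℝ), InClass A M H c →
        {v₀ ∈ P | ¬ AllSummandsWithin M H (bnd c t) v₀}.Finite) ∧
      -- 3. all but few summands with integral Frobenius polynomials are ordinary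
      ∀ (m : ℕ) (r : Fin m → ℕ) (R : ∀ (j : Fin m) (ℓ' : ℕ) [Fact ℓ'.Prime],
          GK K₀ →* Matrix.GeneralLinearGroup (Fin (r j)) ℚ_[ℓ'])
        (H' : Fin m → Multiset ℕ) (c : Piece A → ℝ), SumInClass A R H' c →
        {v₀ ∈ P | ¬ (Set.ncard {j | ¬ Ordinary (R j) (H' j) v₀} : ℝ) ≤ 2 * bnd c t}.Finite ∧
        ((∃ γ : GK K, ∀ i, defect (A i) γ ≤ t i) → ∃ B : Set (Fin m), (B.ncard : ℝ) ≤ 2 * bnd c t ∧
          0 < upperDensity fun v₀ => v₀ ∈ P ∧ ∀ j ∉ B, Ordinary (R j) (H' j) v₀) := by
  have key : ∀ (r : ℕ)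
      (M : ∀ (ℓ' : ℕ) [Fact ℓ'.Prime], GK K₀ →* Matrix.GeneralLinearGroup (Fin r) ℚ_[ℓ'])
      (F : HeightOneSpectrum (𝓞 K₀) → ℤ[X]) (H : Multiset ℕ) (c : Piece A → ℝ) (T : Finset ℕ),
      StrictlyCompatible T M F → IsGen A T F H c → ∀ v, GoodPlace A S v →
      Ideal.absNorm v.asIdeal ∉ T → ∀ v₀ : HeightOneSpectrum (𝓞 K₀),
      v.asIdeal.comap (algebraMap (𝓞 K₀) (𝓞 K)) = v₀.asIdeal → ∀ γ : GK K, IsFrob v γ →
      ∀ t : ι → ℝ, (∀ i, defect (A i) γ ≤ t i) → AllSummandsWithin M H (bnd c t) v₀ := by
    intro r M F H c T hV hF v hv hT v₀ h0 γ hγ t ht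
    have e := under_norm v hv.1.1 v₀ h0
    have hN := close_good A χ S hA hF hv hT hγ v₀ h0 ht
    have hN' := hN
    obtain ⟨hp, -⟩ := hN
    have hv0 : MultSystem.IsDeg1 T v₀ := ⟨e ▸ hv.1.1, e ▸ hT⟩
    refine ⟨Ideal.absNorm v₀.asIdeal, hp, rfl, ?_⟩
    intro ℓ' _ hne γ₀ hγ₀ τ m r' R H' hsum hH hM
    have h1 := closeTau_of _ τ _ _ (F v₀) (hV ℓ' v₀ hv0 hne γ₀ hγ₀) hN'
    exact hasDist_parts (cpQ (M ℓ' γ₀⁻¹)) (fun j => cp (R j γ₀⁻¹))
      (fun j => (Matrix.charpoly_monic _).ne_zero) τ H H' _ h1 (hsum γ₀⁻¹) hH hM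
  refine ⟨⟨{v | GoodPlace A S v}, ?_, ?_⟩, ?_⟩
  · apply Pool.Agent.TH30.Ord.ratio_one
    exact dens_good A χ S hA
  · rintro r M H c ⟨T, F, hV, hF⟩
    refine (finite_norm_mem (K := K) T).subset ?_
    rintro v ⟨hv, hno⟩
    by_contra hT
    exact hno fun v₀ h0 γ hγ => key r M F H c T hV hF v hv hT v₀ h0 γ hγ _ fun i => le_rfl
  · intro t
    have hlow := lower_goodAt (K₀ := K₀) A χ S hA t
    refine ⟨{v₀ | ∃ v : HeightOneSpectrum (𝓞 K),
      v.asIdeal.comap (algebraMap (𝓞 K₀) (𝓞 K)) = v₀.asIdeal ∧ GoodAt A S t v},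
      hlow, share_pos A, ?_, ?_⟩
    · rintro r M H c ⟨T, F, hV, hF⟩
      refine (finite_norm_mem (K := K₀) T).subset ?_
      rintro v₀ ⟨⟨v, h0, hv, γ, hγ, ht⟩, hno⟩
      by_contra hT
      have hT' : Ideal.absNorm v.asIdeal ∉ T := by
        rw [← under_norm v hv.1.1 v₀ h0]
        exact hT
      exact hno (key r M F H c T hV hF v hv hT' v₀ h0 γ hγ t ht)
    · rintro m r R H' c ⟨T, F, hV, hM, hF⟩
      -- at the good places
      have hgood : ∀ v₀ : HeightOneSpectrum (𝓞 K₀), (∃ v : HeightOneSpectrum (𝓞 K),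
          v.asIdeal.comap (algebraMap (𝓞 K₀) (𝓞 K)) = v₀.asIdeal ∧ GoodAt A S t v) →
          Ideal.absNorm v₀.asIdeal ∉ T →
          (Set.ncard {j | ¬ Ordinary (R j) (H' j) v₀} : ℝ) ≤ 2 * bnd c t := by
        rintro v₀ ⟨v, h0, hv, γ, hγ, ht⟩ hT
        have e := under_norm v hv.1.1 v₀ h0
        have hT' : Ideal.absNorm v.asIdeal ∉ T := by
          rw [← e]
          exact hT
        have hv0 : MultSystem.IsDeg1 T v₀ := ⟨e ▸ hv.1.1, hT⟩
        have hN := close_good A χ S hA hF hv hT' hγ v₀ h0 ht
        have h1 := few_bad (fun j => (hM j v₀ hv0).1.ne_zero) hN (fun j => (hM j v₀ hv0).2)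
        refine le_trans ?_ h1
        rw [Nat.cast_le]
        apply Set.ncard_le_ncard _ (Set.toFinite _)
        intro j hj hNS
        apply hj
        obtain ⟨hp, -⟩ := hN
        refine ⟨Ideal.absNorm v₀.asIdeal, hp, rfl, ?_⟩
        intro ℓ' _ hne γ₀ hγ₀ τ
        exact newtonTau_of _ τ _ (F j v₀) (hV j ℓ' v₀ hv0 hne γ₀ hγ₀) hNS
      refine ⟨?_, ?_⟩
      · refine (finite_norm_mem (K := K₀) T).subset ?_
        rintro v₀ ⟨hv, hno⟩
        by_contra hT
        exact hno (hgood v₀ hv hT)
      · intro hex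
        classical
        have hd : (0 : ℝ) < (Module.finrank K₀ K : ℝ) := by
          have : FiniteDimensional K₀ K := Module.Finite.of_restrictScalars_finite ℚ K₀ K
          exact_mod_cast Module.finrank_pos
        have hpos : 0 < lowerDensity (fun v₀ : HeightOneSpectrum (𝓞 K₀) =>
            v₀ ∈ {v₀ | ∃ v : HeightOneSpectrum (𝓞 K),
              v.asIdeal.comap (algebraMap (𝓞 K₀) (𝓞 K)) = v₀.asIdeal ∧ GoodAt A S t v}) :=
          lt_of_lt_of_le (div_pos (share_pos A hex) hd) hlow
        set P : Set (HeightOneSpectrum (𝓞 K₀)) := {v₀ | ∃ v : HeightOneSpectrum (𝓞 K),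
              v.asIdeal.comap (algebraMap (𝓞 K₀) (𝓞 K)) = v₀.asIdeal ∧ GoodAt A S t v} with hP
        have hpos' : 0 < lowerDensity (fun v₀ : HeightOneSpectrum (𝓞 K₀) =>
            v₀ ∈ P ∧ Ideal.absNorm v₀.asIdeal ∉ T) :=
          lt_of_lt_of_le hpos (lowerDensity_le_of_finite _ _ T fun v h1 h2 => ⟨h1, h2⟩)
        obtain ⟨b, hb⟩ := pigeon _ (fun (b : Finset (Fin m)) (v₀ : HeightOneSpectrum (𝓞 K₀)) =>
          (v₀ ∈ P ∧ Ideal.absNorm v₀.asIdeal ∉ T) ∧
            {j | ¬ Ordinary (R j) (H' j) v₀} = (b : Set (Fin m)))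
          (fun v₀ hv => ⟨(Set.toFinite {j | ¬ Ordinary (R j) (H' j) v₀}).toFinset, hv, by simp⟩) hpos'
        refine ⟨(b : Set (Fin m)), ?_, ?_⟩
        · by_contra hcon
          have hempty : ∀ v₀ : HeightOneSpectrum (𝓞 K₀),
              ¬ ((v₀ ∈ P ∧ Ideal.absNorm v₀.asIdeal ∉ T) ∧
                {j | ¬ Ordinary (R j) (H' j) v₀} = (b : Set (Fin m))) := by
            rintro v₀ ⟨⟨h1, h2⟩, h3⟩
            apply hcon
            rw [← h3]
            exact hgood v₀ h1 h2
          have h4 : ratio (fun v₀ : HeightOneSpectrum (𝓞 K₀) =>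
              (v₀ ∈ P ∧ Ideal.absNorm v₀.asIdeal ∉ T) ∧
                {j | ¬ Ordinary (R j) (H' j) v₀} = (b : Set (Fin m))) = fun _ => 0 := by
            funext N
            unfold ratio
            have : IsEmpty {v : HeightOneSpectrum (𝓞 K₀) // Ideal.absNorm v.asIdeal ≤ N ∧
                ((v ∈ P ∧ Ideal.absNorm v.asIdeal ∉ T) ∧
                {j | ¬ Ordinary (R j) (H' j) v} = (b : Set (Fin m)))} :=
              ⟨fun x => hempty x.1 x.2.2⟩
            rw [Nat.card_of_isEmpty]
            simp
          rw [h4, limsup_const] at hb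
          exact lt_irrefl _ hb
        · refine lt_of_lt_of_le hb ?_
          unfold upperDensity
          refine limsup_le_limsup (Eventually.of_forall fun N => ?_) ?_ ?_
          · have h5 := ratio_union_le (β := Unit) (fun v₀ : HeightOneSpectrum (𝓞 K₀) =>
                (v₀ ∈ P ∧ Ideal.absNorm v₀.asIdeal ∉ T) ∧
                {j | ¬ Ordinary (R j) (H' j) v₀} = (b : Set (Fin m)))
              (fun _ v₀ => v₀ ∈ P ∧ ∀ j ∉ (b : Set (Fin m)), Ordinary (R j) (H' j) v₀)
              (fun v₀ hv => ⟨(), hv.1.1, fun j hj => by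
                by_contra hno
                apply hj
                rw [← hv.2]
                exact hno⟩) N
            simpa using h5
          · exact IsBoundedUnder.isCoboundedUnder_le ⟨0, by
              rw [eventually_map]
              exact Eventually.of_forall fun N => ratio_nonneg _ N⟩
          · exact ⟨1, by
              rw [eventually_map]
              exact Eventually.of_forall fun N => ratio_le_one _ N⟩

end Pool.Agent.Results.MP_0dad22_ag.AllButFewSummands
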