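import Pool.Agent.K3h30.OC.Tau

/-!
# Common ordinary primes for all direct summands of all motives in a large tensor category

`K₀` is a number field. The generators: for every `n : ℕ` a finite extension `K n` of `K₀` and finitely
many pure motives `A n i` over `K n` with multiplication by totally real or CM fields, each with its own
finite set `S n i` of bad residue characteristics (over `K n` the `ℓ n`-adic monodromy groups are
connected, for one prime `ℓ n`). Orbit condition: for every `n` there is an element `γ` of the Galois
group of `K n` which is `Admissible` for all `A n i` (the identity will do if the defects are at most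
two, for instance for the motives of K3 type, see below).

The class `Generated (A n) T` is the smallest class of motives over `K n` which contains the pieces of
the `A n i` and which is closed under direct sums, tensor products, duals, Tate twists, direct summands
and tensor factors: if `U ⊗ U'` is in the class and `U' ≠ 0`, then `U` is in the class. (Mazur's
inequality is assumed for direct summands and their complements and for tensor factors, outside the
finite set `T` of residue characteristics. A motive enters only through its Frobenius eigenvalues at
the places of degree one, `Obj`.)

Let `M` be a motive over `K₀` with strictly compatible realisations `M ℓ'`, for all primes `ℓ'`, and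
with Hodge slopes `H`; in the problem `M ℓ'` is the intersection cohomology `H_ℓ'`. Let `R` be a direct
summand of `M`. In the problem its realisations are not known to be compatible, and so it enters as
follows: for a prime `ℓ'` let `R` be **any** direct summand of `M ℓ'`, with coefficients in `ℚ̄_ℓ'` and
with the complement `R'`. So `R` may be given by an idempotent of `End(M)`, of `End(M) ⊗ ℚ̄` or of the
algebra of endomorphisms of the Galois module `M ℓ'` with coefficients in `ℚ̄_ℓ'`; nothing is assumed
about the coefficients of its characteristic polynomials. The only hypothesis is Mazur's inequality for
`R` and `R'`: the Newton polygons for `τ` lie on or above the polygons with the slopes `H₁` and `H₂`,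
the Hodge-Tate weights, `H₁ + H₂ = H` (it is known if the idempotent is an algebraic cycle).

Theorem.
1. If `M` is potentially in the class (`IsGenerated`: over `K n`, for one `n`), then the set of the
   places `v₀` of `K₀` at which, for all `ℓ'` and all embeddings `τ` of the field of algebraic numbers
   into `ℚ̄_p`, **the Newton polygons of `M ℓ'` and of all direct summands `R` of `M ℓ'` are the Hodge
   polygons** (`AllSummandsOrdinary`) has positive lower density: at least the proportion of the
   admissible elements divided by `[K n : K₀]`.
2. There is *one* infinite set `P` of places of `K₀` which works for *all* motives `M` and *all* direct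
   summands: if `M` is in the class for all large `n`, then all but finitely many places in `P` have
   this property. The lower density of `P` is at least `c`, if `c` is at most the proportion of the
   admissible elements divided by `[K n : K₀]`, for every `n`.

Examples. Let the `A n` enumerate the motives of K3 type over finite extensions of `K₀`: weight `2`,
with multiplication by a totally real or CM field `E`, and with `h^{2,0} = 1` for one embedding of `E`
and `h^{2,0} = 0` for all other embeddings, up to complex conjugation; together with the `H¹` of
elliptic curves, of abelian surfaces and of abelian varieties of CM type. Then the class contains also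
the `H¹` of the Kuga-Satake varieties and of all abelian varieties for which all simple factors of the
adjoint Mumford-Tate group are of type `A_1` with one noncompact real place (for instance all those
parametrised by Shimura curves, and the fourfolds of Mumford's type), by the closure under tensor
factors. So Q1 holds for all direct summands `R = e M` (`e` an algebraic cycle) of the intersection
cohomology of `X` with coefficients in `R^i π_* ℚ_ℓ` if `H_ℓ` is, over some finite extension, in the
tensor category of these motives, with one infinite set `P` of primes for all of them.

Compared with the starting files (`MP_0dad22_ag.OrdinarySummands`: one motive with integral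
characteristic polynomials, a sum of copies of the `A i`; `MP_17d720_ag.CommonOrdinaryReduction`: direct
summands of tensor products with integral characteristic polynomials) the summands with arbitrary
characteristic polynomials and the tensor factors are new. The generators and their ordinary primes,
and the construction of the set `P`, are in the starting files (`Pool.Agent.W528`, `Pool.Agent.W850`).
-/

set_option autoImplicit false

namespace Pool.Agent.Results.MP_0dad22_ag.CommonPrimesForSummands

open NumberField IsDedekindDomain Polynomial Filter Topology
open Pool.Agent.W401.Cheb Pool.Agent.W528.Ord Pool.Agent.K3h30.OC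

theorem result (K₀ : Type) [Field K₀] [NumberField K₀]
    -- the fields of definition and the generators
    (K : ℕ → Type) [∀ n, Field (K n)] [∀ n, NumberField (K n)] [∀ n, Algebra K₀ (K n)]
    (ℓ : ℕ → ℕ) [∀ n, Fact (ℓ n).Prime] (ι : ℕ → Type) [∀ n, Fintype (ι n)]
    (A : ∀ n, ι n → MotSystem (K n) (ℓ n)) (χ : ∀ n, GK (K n) →* (PadicAlgCl (ℓ n))ˣ)
    (S : ∀ n, ι n → Finset ℕ) (hA : ∀ n i, (A n i).IsMotive (χ n) (S n i))
    -- the orbit condition
    (hγ : ∀ n, ∃ γ : GK (K n), ∀ i, (A n i).Admissible γ)
    (c : ℝ) (hc : ∀ n, c ≤ MotSystem.admProportion (A n) / (Module.finrank K₀ (K n) : ℝ)) :
    ∃ P : Set (HeightOneSpectrum (𝓞 K₀)), P.Infinite ∧ c ≤ lowerDensity (fun v₀ => v₀ ∈ P) ∧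
      -- all motives `M`
      ∀ (T : Finset ℕ) (r : ℕ)
        (M : ∀ (ℓ' : ℕ) [Fact ℓ'.Prime], GK K₀ →* Matrix.GeneralLinearGroup (Fin r) ℚ_[ℓ'])
        (F : HeightOneSpectrum (𝓞 K₀) → ℤ[X]) (H : Multiset ℕ), StrictlyCompatible T M F →
        -- positive lower density
        (∀ n, IsGenerated (A n) T F H →
          0 < MotSystem.admProportion (A n) / (Module.finrank K₀ (K n) : ℝ) ∧
          MotSystem.admProportion (A n) / (Module.finrank K₀ (K n) : ℝ) ≤
            lowerDensity (AllSummandsOrdinary M H)) ∧
        -- the common set of places
        ((∀ᶠ n in atTop, IsGenerated (A n) T F H) →
          {v₀ ∈ P | ¬ AllSummandsOrdinary M H v₀}.Finite) := by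
  obtain ⟨P, h1, h2, h3⟩ := main K₀ K ℓ ι A χ S hA hγ c hc
  refine ⟨P, h1, h2, fun T r M F H hM => ?_⟩
  have h4 := h3 T Unit (fun _ => F) (fun _ => H) (AllSummandsOrdinary M H)
    (fun v₀ hv hN => allSummands_of hM hv (hN ()))
  exact ⟨fun n hn => h4.1 n fun _ => hn, fun hn => h4.2 fun _ => hn⟩

end Pool.Agent.Results.MP_0dad22_ag.CommonPrimesForSummands
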