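import Pool.Agent.K3h30.NH.Near
import Pool.Agent.Results.MP_0dad22_ag.OrdinarySummands

/-!
# Newton polygons near the Hodge polygon, without an orbit condition

The frame is that of the starting file `OrdinarySummands`: `K₀` is a number field and `R` a motive over
`K₀`, a summand of a motive which realises the intersection cohomology `H_ℓ`; `R ℓ'` is its `ℓ'`-adic
realisation, for all primes `ℓ'`, with integral characteristic polynomials `F v₀` which do not depend on
`ℓ'`. Over a finite extension `K` of `K₀` (over which the `ℓ`-adic monodromy groups are connected, for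
one prime `ℓ`) `R` is a direct sum of `m i` copies of pieces `A i` of arbitrary weight and arbitrary
Hodge numbers with multiplication by totally real or CM fields `(A i).E` defined over `K`. There it is
shown that `R` is ordinary at a set of primes of positive density if some element of the Galois group
satisfies the orbit condition `Admissible`. Here no orbit condition is imposed.

For a place `v` of `K` of degree one, `p = N v`, and an embedding `τ` of the field of algebraic numbers
into `ℚ̄_p`, the set `fails (A i) v τ k` is the set of the embeddings `σ` of `(A i).E` at which the Newton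
polygon of the `σ`-part of `A i` lies strictly above its Hodge polygon at the point `k`. The Hodge defect
at `k` is the sum over all `σ` of `w k - 2 hp σ k`, twice the height of the line of slope `w / 2` over the
Hodge polygon (it is `2` for a motive of K3 type).

Theorem.

1. At a set of places `v` of `K` of density one, for all `τ`, all Frobenius elements `γ` and all `i`, the
   sets `fails (A i) v τ k` form a `γ`-excess family (`IsExcess`): they are stable under `γ`, complex
   conjugation takes the set for `k` to the set for `n - k`, they are empty for `k = 0` and `k = n`, and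
   convex along the edges of the Hodge polygons; and **each of them, if it is not empty, has fewer
   elements than half the Hodge defect at `k`**. Consequently at the place `v₀` of `K₀` below `v`, for all
   `ℓ'` and all `τ`, all slopes of the Newton polygon of `R ℓ'`, with the exception of at most
   `wrong A m γ = Σ m i * number (A i) γ`, are Hodge slopes, with multiplicity (`Near`). Here
   `number (A i) γ` is the largest possible number of pairs of an embedding `σ` and a step of its
   Hodge polygon such that `σ` is in the set for one end of the step, for a `γ`-excess family.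
2. For *every* element `γ` of the absolute Galois group of `K` the places of `K₀` with this property
   have positive lower density.
3. If `γ` satisfies the orbit condition for all `i`, then `wrong A m γ = 0`, and `Near` without
   exceptions is `Ordinary`; so the theorem of the starting file is the special case `wrong = 0`.

Examples. (a) Let `R` be of weight two, with multiplication by a totally real field `E`, of rank `n` over
`E`, with `h^{2,0} = 1` for `t` embeddings of `E` and `h^{2,0} = 0` for the others. Then the Hodge defect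
is `2 t` for all `0 < k < n`, so at a set of places of density one there are at most `t - 1` embeddings at
which the polygons differ: at least `[E : ℚ] - t + 1` of the parts are ordinary, for each `τ`, and at
least one of them has the slope `0`. The orbit condition fails, for instance, if `t = [E : ℚ]` and the
Galois group has no element which acts transitively on the embeddings. If `γ` permutes the `t`
embeddings with `h^{2,0} = 1` in cycles of length `s`, then at the places of part 2 the polygons differ
for at most `s ⌊(t - 1) / s⌋` embeddings.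
(b) For `R = H^1` of an abelian variety, part 1 contains the bound for the number of the failing
embeddings of the starting file `MP_17d720_ag.PRankLowerBound` (which is about the slope `0` only).
-/

set_option autoImplicit false

namespace Pool.Agent.Results.MP_0dad22_ag.NewtonNearHodge

open NumberField IsDedekindDomain Polynomial Filter Topology
open Pool.Agent.W401.Cheb Pool.Agent.W528.Ord Pool.Agent.K3h30.NH
open Pool.Agent.Results.MP_0dad22_ag.OrdinarySummands (StrictlyCompatible Ordinary)

/-- For every prime `ℓ'` different from the residue characteristic `p = N v₀` and every embedding `τ`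
of the field of algebraic numbers all slopes of the Newton polygon of `R ℓ'` at `v₀`, with the exception
of at most `t`, are members of `H`, with multiplicity. -/
def Near {K₀ : Type} [Field K₀] [NumberField K₀] {r : ℕ}
    (R : ∀ (ℓ' : ℕ) [Fact ℓ'.Prime], GK K₀ →* Matrix.GeneralLinearGroup (Fin r) ℚ_[ℓ'])
    (H : Multiset ℕ) (t : ℕ) (v₀ : HeightOneSpectrum (𝓞 K₀)) : Prop :=
  ∃ (p : ℕ) (_ : Fact p.Prime), Ideal.absNorm v₀.asIdeal = p ∧
    ∀ (ℓ' : ℕ) [Fact ℓ'.Prime], p ≠ ℓ' → ∀ γ : GK K₀, IsFrob v₀ γ →
      ∀ τ : algebraicClosure ℚ (PadicAlgCl ℓ') →+* PadicAlgCl p,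
        NearTau (R ℓ' γ⁻¹ : Matrix (Fin r) (Fin r) ℚ_[ℓ']) τ H t

/-- For all embeddings `τ` of the algebraic closure of `K` into `ℚ̄_p`, over the place `v` with
`N v = p`, and all Frobenius elements `γ` for `τ`, the sets of the embeddings at which the polygons
differ form a `γ`-excess family. -/
def ExcessAt {K : Type} [Field K] [NumberField K] {ℓ : ℕ} [Fact ℓ.Prime] {ι : Type}
    (A : ι → MotSystem K ℓ) (v : HeightOneSpectrum (𝓞 K)) : Prop :=
  ∀ (p : ℕ) [Fact p.Prime], Ideal.absNorm v.asIdeal = p →
    ∀ (τ : AlgebraicClosure K →+* PadicAlgCl p) (Q : Ideal (𝓞 (AlgebraicClosure K))) (γ : GK K),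
      MultSystem.IsOver Q v →
      (∀ x : 𝓞 (AlgebraicClosure K), x ∈ Q ↔ ‖τ (x : AlgebraicClosure K)‖ < 1) →
      (∀ x : 𝓞 (AlgebraicClosure K), γ • x - x ^ p ∈ Q) →
      ∀ i, IsExcess (A i) γ (fails (A i) v τ)

theorem result (K₀ K : Type) [Field K₀] [NumberField K₀] [Field K] [NumberField K] [Algebra K₀ K]
    (ℓ : ℕ) [Fact ℓ.Prime] {ι : Type} [Fintype ι] (A : ι → MotSystem K ℓ) (m : ι → ℕ)
    (χ : GK K →* (PadicAlgCl ℓ)ˣ) (S : Finset ℕ) (hA : ∀ i, (A i).IsMotive χ S) {r : ℕ}
    (R : ∀ (ℓ' : ℕ) [Fact ℓ'.Prime], GK K₀ →* Matrix.GeneralLinearGroup (Fin r) ℚ_[ℓ'])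
    (F : HeightOneSpectrum (𝓞 K₀) → Polynomial ℤ) (hR : StrictlyCompatible S R F)
    (hF : ∀ (v₀ : HeightOneSpectrum (𝓞 K₀)) (v : HeightOneSpectrum (𝓞 K)),
      v.asIdeal.comap (algebraMap (𝓞 K₀) (𝓞 K)) = v₀.asIdeal → MultSystem.IsDeg1 S v →
      (F v₀).map (Int.castRingHom (AlgebraicClosure K)) = MotSystem.prodPoly A m v) :
    -- a set of places of `K` of density one
    Tendsto (ratio fun v : HeightOneSpectrum (𝓞 K) => MultSystem.IsDeg1 S v ∧ ExcessAt A v ∧
      ∀ v₀ : HeightOneSpectrum (𝓞 K₀), v.asIdeal.comap (algebraMap (𝓞 K₀) (𝓞 K)) = v₀.asIdeal →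
        ∀ γ : GK K, IsFrob v γ → Near R (MotSystem.slopes A m) (wrong A m γ) v₀) atTop (𝓝 1) ∧
    -- for every element of the Galois group a set of places of `K₀` of positive lower density
    (∀ γ : GK K, 0 < lowerDensity (Near R (MotSystem.slopes A m) (wrong A m γ))) ∧
    -- the orbit condition
    (∀ γ : GK K, (∀ i, (A i).Admissible γ) → wrong A m γ = 0) ∧
    ∀ v₀ : HeightOneSpectrum (𝓞 K₀), Near R (MotSystem.slopes A m) 0 v₀ →
      Ordinary R (MotSystem.slopes A m) v₀ := by
  have key : ∀ v, GoodPlace A S v → ∀ v₀ : HeightOneSpectrum (𝓞 K₀),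
      v.asIdeal.comap (algebraMap (𝓞 K₀) (𝓞 K)) = v₀.asIdeal → ∀ γ : GK K, IsFrob v γ →
      ∀ t : ℕ, wrong A m γ ≤ t → Near R (MotSystem.slopes A m) t v₀ := by
    intro v hv v₀ h0 γ hγ t ht
    have e := under_norm v hv.1.1 v₀ h0
    have hN := near_good A m χ S hA hv hγ (F v₀) (hF v₀ v h0 hv.1) ht
    rw [← e] at hN
    have hN' := hN
    obtain ⟨hp, -⟩ := hN
    have hv0 : MultSystem.IsDeg1 S v₀ := by
      unfold MultSystem.IsDeg1
      rw [e]
      exact hv.1
    refine ⟨Ideal.absNorm v₀.asIdeal, hp, rfl, ?_⟩
    intro ℓ' _ hne γ₀ hγ₀ τ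
    exact nearTau_of _ τ _ t (F v₀) (hR ℓ' v₀ hv0 hne γ₀ hγ₀) hN'
  refine ⟨?_, ?_, ?_, ?_⟩
  · apply Pool.Agent.TH30.Ord.ratio_one
    refine squeeze_zero (fun N => dens_nonneg _ _) (fun N => dens_mono ?_ N) (dens_good A χ S hA)
    intro v hv hg'
    apply hv
    refine ⟨hg'.1, ?_, fun v₀ h0 γ hγ => key v hg' v₀ h0 γ hγ _ le_rfl⟩
    intro p _ hpe τ Q γ hQ hτ hγ i
    subst hpe
    exact isExcess_fails A χ S hA hg' hQ rfl hτ hγ i
  · intro γ₀
    obtain ⟨δ, hδ, hev⟩ := lower_K A χ S hA γ₀
    have hd : (0 : ℝ) < (Module.finrank ℚ K : ℝ) := by exact_mod_cast Module.finrank_pos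
    apply lowerDensity_pos _ (δ / (Module.finrank ℚ K : ℝ)) (by positivity)
    filter_upwards [hev] with N hN
    have h1 := dens_under (K₀ := K₀) (fun v : HeightOneSpectrum (𝓞 K) => GoodPlace A S v ∧
        ∃ γ : GK K, IsFrob v γ ∧ ∀ i, number (A i) γ ≤ number (A i) γ₀)
        (fun v₀ : HeightOneSpectrum (𝓞 K₀) => Near R (MotSystem.slopes A m) (wrong A m γ₀) v₀)
        (fun v hv => hv.1.1.1) (fun v v₀ hv h0 => by
          obtain ⟨hgood, γ, hγ, hle⟩ := hv
          refine key v hgood v₀ h0 γ hγ _ ?_
          unfold wrong
          apply Finset.sum_le_sum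
          intro i _
          exact Nat.mul_le_mul_left _ (hle i)) N
    rw [div_le_iff₀ hd, mul_comm]
    exact hN.trans h1
  · intro γ hγ
    unfold wrong
    apply Finset.sum_eq_zero
    intro i _
    rw [number_adm (fun σ => ((hA i).isHodge σ).2.1) (fun σ => ((hA i).isHodge σ).1) (hγ i), mul_zero]
  · rintro v₀ ⟨p, hp, hpe, h⟩
    refine ⟨p, hp, hpe, ?_⟩
    intro ℓ' _ hne γ hγ τ
    exact nearTau_zero _ τ _ (h ℓ' hne γ hγ τ)

end Pool.Agent.Results.MP_0dad22_ag.NewtonNearHodge
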