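import Pool.Agent.K3h43.ORD.SemiMain

/-!
# Ordinary primes for summands of motives and the simple factors of the motivic Lie algebra

`C` is an additive symmetric monoidal category with an additive symmetric monoidal functor `R` to
finite-dimensional super vector spaces over an algebraically closed field `K` of characteristic zero. The
example: `C` consists of the André motives over a number field `F` with good reduction at a prime `𝔭` (of the
motives whose `ℓ`-adic realisations are unramified at `𝔭` for all `ℓ` prime to `𝔭`), and `R(X)` is
`X_ℓ ⊗ K`, with `K` the completion of an algebraic closure of `ℚ_ℓ`.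

A tensor derivation of `R` (`TDer`) is a natural family of endomorphisms `d_X` of the `R(X)` such that
`d` of a tensor product is `d_X ⊗ 1 + 1 ⊗ d_Y`; in the example these form the Lie algebra of the motivic
Galois group, over `K`. A `SlopeOp` is a tensor derivation which is diagonalisable with rational eigenvalues
on all objects, that is, a grading of `R` by the rational numbers, natural and compatible with the tensor
product. In the example there are two of them: for an embedding `τ` of `ℚ̄` in `ℚ̄_p` the grading `N` of
`X_ℓ ⊗ K` by the numbers `v(τ(a))` for the eigenvalues `a` of `Frob_𝔭`, whose degrees are the slopes of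
`Newton_τ(Frob_𝔭, X_ℓ)`, and the Hodge-Tate grading `T` at a place above `ℓ`, whose degrees are the
slopes of `HP(X_ℓ)`. So `Ordinary N T X` says that `Newton_τ(Frob_𝔭, X_ℓ) = HP(X_ℓ)`, and
`NewtonAboveHodge N T X` that the Newton polygon lies on or above the Hodge polygon, with the same endpoints
(known if `X` is cut out by an algebraic cycle).

Let `A j` be finitely many objects such that for all `j` the traceless values on `A j` of the tensor
derivations form a simple Lie algebra, that the Lie algebra of all values contains the scalars or consists of
endomorphisms of trace zero, that some grading has two slopes on `A j`, and that the simple Lie algebras of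
the `A j` are independent: all families of traceless values `x j` are the values of one derivation
(`SimpleFactorsOf`). For example `A j = h^1(B_j)` for abelian varieties `B_j` with Mumford-Tate group
`GSp`, without nonzero homomorphisms between different `B_j` over `F^s`, and motives of K3 type or the
primitive cohomology of hypersurfaces with large motivic Galois groups.

An object `P` is governed by the `A j` (`GovernedBy`) if the tensor derivations which are zero on all
`A j` are zero on `P`, and those which are scalars on all `A j` are scalars on `P`. In the example this
holds for all pure motives in the tensor category generated by the `A j`, if that contains the Tate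
motive, so for all their direct summands `eM`, with arbitrary idempotents `e`. The class contains the `A j`
and is closed under tensor products, direct summands and tensor factors.

Theorem. Let `P` be governed by the `A j`, with `R(P) ≠ 0`. (1) There are rational numbers `α_j ≥ 0`,
positive if and only if the `j`-th simple Lie algebra acts on `P` (`ActsOn`), such that for all gradings of
`R` the spread `∑ (c_i - c)^2` of the slopes `c_i` of `P` (`c` is their average) is the sum of the
numbers `α_j` times the spread of the slopes of `A j` (`Coefficients`). (2) Let for the gradings `N` and
`T` the Newton polygon be above the Hodge polygon for `P` and for the `A j` which act on `P`. Then the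
two polygons agree for `P` if and only if they agree for all `A j` which act on `P`. (3) If `P` and `Q`
have proportional coefficients `α`, for example if there is only one factor and `P` and `Q` have each two
slopes, and for `P` and `Q` the Newton polygon is above the Hodge polygon, then the polygons agree for `P` if
and only if they agree for `Q`; here nothing is assumed on the polygons of the `A j`.

So the ordinary primes of `P` are the common ordinary primes of the simple factors which act on it; they
depend only on this set of factors, and Q1 for `P` is the statement that these factors have infinitely many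
common ordinary primes.

Proof. For each `j` the Lie algebra `𝔤_j` of the traceless values on `A j` acts on `R(P)`, by `ρ_j`
(lift the value to a derivation which is zero on the other `A k`). Linear forms on `𝔤_j` which vanish on
commutators vanish, so `ρ_j(x)` has trace zero, and `Tr(ρ_j(x) ρ_k(y)) = 0` for `j ≠ k`. As `𝔤_j` is
simple, the invariant form `Tr(ρ_j(x) ρ_j(y))` is `α_j Tr(x y)`. The traceless part of a grading is
`∑ ρ_j(x_j)` on `P` and `x_j` on `A j`, which gives the formula. To see that `α_j` is rational and not
negative, let `d` be the derivation with the value `x_j` on `A j` and zero on the other `A k`, let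
`φ : K → ℚ` be additive with `φ(q) = q` for rational `q`, and let `d'` be the replica of `d` which
multiplies the generalised eigenspaces of `d` for `a` by `φ(a)`. This is again a tensor derivation. It is
equal to `d` on all `A k`, so also on `P`. So the eigenvalues of `d` on `P` are rational. Finally, if one
polygon is above the other one, with the same endpoints, then its spread is at most that of the other one,
and they are equal only if the polygons are.
-/

set_option autoImplicit false

open CategoryTheory MonoidalCategory

namespace Pool.Agent.Results.MP_0dad22_ag.SimpleFactors

open Pool.Agent.Y112.SR Pool.Agent.K3h43.ORD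

universe v u w

section

variable {C : Type u} [Category.{v} C] [Preadditive C] [MonoidalCategory C] [SymmetricCategory C]
  {K : Type w} [Field K] (R : SuperRealisation C K)

/-- A class of objects is closed under tensor products, direct summands and tensor factors. -/
def TensorClosed (Cl : C → Prop) : Prop :=
  (∀ P Q : C, Cl P → Cl Q → Cl (P ⊗ Q)) ∧
    (∀ (P Q : C) (i : P ⟶ Q) (r : Q ⟶ P), i ≫ r = 𝟙 P → Cl Q → Cl P) ∧
    ∀ P Q : C, Module.finrank K (R.H.obj P) ≠ 0 → Cl P → Cl (P ⊗ Q) → Cl Q

/-- The traceless values of the tensor derivations on each `A j` form a simple Lie algebra, these Lie
algebras are independent, all values together contain the scalars or have trace zero, and some grading has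
two different slopes on `A j`. -/
structure SimpleFactorsOf {J : Type} (A : J → C) : Prop where
  simple (j : J) : SimpleLie R (A j)
  homotheties (j : J) : Homotheties R (A j)
  varies (j : J) : ∃ θ : SlopeOp R, TwoSlopes θ (A j)
  independent : Independent R A

/-- The numbers `α j ≥ 0` are positive if and only if the `j`-th simple Lie algebra acts on `P`, and for all
gradings the spread of the slopes of `P` is the sum of the `α j` times the spread of the slopes of
`A j`. -/
def Coefficients {J : Type} [Fintype J] (A : J → C) (P : C) (α : J → ℚ) : Prop :=
  (∀ j, 0 ≤ α j ∧ (0 < α j ↔ ActsOn R A j P)) ∧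
    ∀ (θ : SlopeOp R) (c : ∀ j, Fin (Module.finrank K (R.H.obj (A j))) → ℚ)
      (c' : Fin (Module.finrank K (R.H.obj P)) → ℚ), (∀ j, HasSlopes θ (A j) (c j)) →
      HasSlopes θ P c' → spread c' = ∑ j, α j * spread (c j)

end

theorem result {C : Type u} [Category.{v} C] [Preadditive C] [MonoidalCategory C]
    [SymmetricCategory C] {K : Type w} [Field K] [CharZero K] [IsAlgClosed K]
    (R : SuperRealisation C K) {J : Type} [Fintype J] (A : J → C) (hA : SimpleFactorsOf R A) :
    ((∀ j, GovernedBy R A (A j)) ∧ TensorClosed R (GovernedBy R A)) ∧
    (∀ P : C, GovernedBy R A P → Module.finrank K (R.H.obj P) ≠ 0 →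
      (∃ α : J → ℚ, Coefficients R A P α) ∧
      ∀ N T : SlopeOp R, NewtonAboveHodge N T P →
        (∀ j, ActsOn R A j P → NewtonAboveHodge N T (A j)) →
        (Ordinary N T P ↔ ∀ j, ActsOn R A j P → Ordinary N T (A j))) ∧
    ∀ (P Q : C) (α : J → ℚ) (r : ℚ), 0 < r → Coefficients R A P α →
      Coefficients R A Q (fun j => r * α j) → ∀ N T : SlopeOp R, NewtonAboveHodge N T P →
      NewtonAboveHodge N T Q → (Ordinary N T P ↔ Ordinary N T Q) := by
  refine ⟨⟨governedBy_self A, fun P Q hP hQ => governedBy_tensor hP hQ,
    fun P Q i r h hQ => governedBy_summand hQ i r h,
    fun P Q h0 h h' => governedBy_factor h0 h h'⟩, fun P hP hP0 => ?_, ?_⟩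
  · have h := semi_ordinary hA.independent hA.simple hA.homotheties hA.varies hP hP0
    obtain ⟨α, h1, h2⟩ := semi_spread hA.independent hA.simple hA.homotheties hA.varies hP hP0
    exact ⟨⟨α, h1, h2⟩, fun N T hN hNA => ⟨(h N T).2 hNA, (h N T).1 hN⟩⟩
  · intro P Q α r hr hP hQ N T hNP hNQ
    have key : ∀ (θ : SlopeOp R) (c : Fin (Module.finrank K (R.H.obj P)) → ℚ)
        (c' : Fin (Module.finrank K (R.H.obj Q)) → ℚ), HasSlopes θ P c → HasSlopes θ Q c' →
        spread c' = r * spread c := by
      intro θ c c' hc hc'
      choose a ha using fun j => θ.exists_slopes (A j)
      rw [hP.2 θ a c ha hc, hQ.2 θ a c' ha hc', Finset.mul_sum]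
      exact Finset.sum_congr rfl fun j _ => mul_assoc _ _ _
    have key' : ∀ (θ : SlopeOp R) (c : Fin (Module.finrank K (R.H.obj Q)) → ℚ)
        (c' : Fin (Module.finrank K (R.H.obj P)) → ℚ), HasSlopes θ Q c → HasSlopes θ P c' →
        spread c' = r⁻¹ * spread c := by
      intro θ c c' hc hc'
      rw [key θ c' c hc' hc, inv_mul_cancel_left₀ hr.ne']
    exact ⟨ordinary_of_spread hr key N T hNQ, ordinary_of_spread (inv_pos.mpr hr) key' N T hNP⟩

end Pool.Agent.Results.MP_0dad22_ag.SimpleFactors
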